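import Pool.Agent.Lib.MP_247fd6_al.HS5

set_option autoImplicit false

open Matrix
open scoped Pointwise

namespace Pool.Agent.Results.MP_247fd6_al.Cubulated

open Pool.Agent.Lib.MP_247fd6_al

/-- Growth density for cubulated groups: let `G` be a torsion-free discrete cocompact group of
isometries of hyperbolic `n`-space (hyperboloid model) which acts properly and cocompactly on a
median graph `T` (the 1-skeleton of a CAT(0) cube complex) such that the stabilisers of the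
half-spaces `{z | dist z x < dist z y}` (`x y` an edge) are separable.  Then every open
subinterval of `[0, ω G]` contains the growth exponent of a finitely generated subgroup of `G`. -/
theorem result :
  ∀ n : ℕ,
  ∀ η : Matrix (Fin (n+1)) (Fin (n+1)) ℝ,
    η = Matrix.diagonal (fun i : Fin (n+1) => if i = 0 then (-1 : ℝ) else 1) →
  ∀ ω : Subgroup (Matrix (Fin (n+1)) (Fin (n+1)) ℝ)ˣ → ℝ,
    (∀ H : Subgroup (Matrix (Fin (n+1)) (Fin (n+1)) ℝ)ˣ,
      ω H = Filter.limsup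
        (fun r : ℝ => Real.log
          ((({h | h ∈ H ∧ h.val 0 0 ≤ Real.cosh r} :
              Set (Matrix (Fin (n+1)) (Fin (n+1)) ℝ)ˣ).ncard : ℝ)) / r)
        Filter.atTop) →
  ∀ G : Subgroup (Matrix (Fin (n+1)) (Fin (n+1)) ℝ)ˣ,
    (∀ g ∈ G, g.valᵀ * η * g.val = η ∧ 0 < g.val 0 0) →
    (∀ R : ℝ, ({g | g ∈ G ∧ ∀ i j, |g.val i j| ≤ R} :
        Set (Matrix (Fin (n+1)) (Fin (n+1)) ℝ)ˣ).Finite) →
    (∀ g ∈ G, ∀ k : ℕ, 0 < k → g ^ k = 1 → g = 1) →
    (∃ C : ℝ, ∀ x : Fin (n+1) → ℝ, x ⬝ᵥ (η *ᵥ x) = -1 → 0 < x 0 →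
        ∃ g ∈ G, -(x ⬝ᵥ (η *ᵥ (fun i => g.val i 0)))  ≤ C) →
  ∀ (Y : Type) [MulAction G Y] (T : SimpleGraph Y),
    T.Connected →
    (∀ (g : G) (x y : Y), T.Adj x y → T.Adj (g • x) (g • y)) →
    (∀ x y z : Y, ∃! m : Y, T.dist x m + T.dist m y = T.dist x y ∧
      T.dist y m + T.dist m z = T.dist y z ∧ T.dist x m + T.dist m z = T.dist x z) →
    (∀ y : Y, {g : G | g • y = y}.Finite) →
    (∃ E : Finset (Y × Y), ∀ x y : Y, T.dist x y ≤ 1 → ∃ g : G, (g • x, g • y) ∈ E) →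
    (∀ x y : Y, T.Adj x y → ∀ g : G,
      g • {z : Y | T.dist z x < T.dist z y} ≠ {z : Y | T.dist z x < T.dist z y} →
      ∃ B : Subgroup G, B.FiniteIndex ∧ ∀ s : G,
        s • {z : Y | T.dist z x < T.dist z y} = {z : Y | T.dist z x < T.dist z y} →
        s⁻¹ * g ∉ B) →
    ∀ a b : ℝ, 0 ≤ a → a < b → b ≤ ω G →
      ∃ H : Subgroup (Matrix (Fin (n+1)) (Fin (n+1)) ℝ)ˣ,
        H ≤ G ∧ H.FG ∧ a < ω H ∧ ω H < b := by
  intro n η hη ω hω G hG hdisc htf hcoc Y _ T hconn hadj hmed hstab hcof hsep a b ha hab hb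
  have hη' : η = eta n := hη
  subst hη'
  simp only [bf_eq] at hcoc
  have hom : ∀ H, ω H = om H := fun H => hω H
  rw [hom] at hb
  simp only [hom]
  exact density_of_cub G hG hdisc htf hcoc Y T hconn hadj hmed hstab hcof hsep ha hab hb

end Pool.Agent.Results.MP_247fd6_al.Cubulated
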