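import Pool.Agent.Lib.MP_247fd6_al.PH3

set_option autoImplicit false

open Matrix

namespace Pool.Agent.Results.MP_247fd6_al.HalfRange

open Pool.Agent.Lib.MP_247fd6_al

/-- Growth density in the lower half of the interval: for every discrete cocompact group `G` of
isometries of hyperbolic `n`-space (hyperboloid model), every open subinterval of `[0, ω G / 2]`
contains the growth exponent of a finitely generated subgroup of `G`. -/
theorem result :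
  ∀ n : ℕ,
  ∀ η : Matrix (Fin (n+1)) (Fin (n+1)) ℝ,
    η = Matrix.diagonal (fun i : Fin (n+1) => if i = 0 then (-1 : ℝ) else 1) →
  ∀ ω : Subgroup (Matrix (Fin (n+1)) (Fin (n+1)) ℝ)ˣ → ℝ,
    (∀ H : Subgroup (Matrix (Fin (n+1)) (Fin (n+1)) ℝ)ˣ,
      ω H = Filter.limsup
        (fun r : ℝ => Real.log
          ((({h | h ∈ H ∧ h.val 0 0 ≤ Real.cosh r} :
              Set (Matrix (Fin (n+1)) (Fin (n+1)) ℝ)ˣ).ncard : ℝ)) / r)
        Filter.atTop) →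
  ∀ G : Subgroup (Matrix (Fin (n+1)) (Fin (n+1)) ℝ)ˣ,
    (∀ g ∈ G, g.valᵀ * η * g.val = η ∧ 0 < g.val 0 0) →
    (∀ R : ℝ, ({g | g ∈ G ∧ ∀ i j, |g.val i j| ≤ R} :
        Set (Matrix (Fin (n+1)) (Fin (n+1)) ℝ)ˣ).Finite) →
    (∃ C : ℝ, ∀ x : Fin (n+1) → ℝ, x ⬝ᵥ (η *ᵥ x) = -1 → 0 < x 0 →
        ∃ g ∈ G, -(x ⬝ᵥ (η *ᵥ (fun i => g.val i 0)))  ≤ C) →
    ∀ a b : ℝ, 0 ≤ a → a < b → b ≤ ω G / 2 →
      ∃ H : Subgroup (Matrix (Fin (n+1)) (Fin (n+1)) ℝ)ˣ,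
        H ≤ G ∧ H.FG ∧ a < ω H ∧ ω H < b := by
  intro n η hη ω hω G hG hdisc hcoc a b ha hab hb
  have hη' : η = eta n := hη
  subst hη'
  simp only [bf_eq] at hcoc
  have hom : ∀ H, ω H = om H := fun H => hω H
  rw [hom] at hb
  simp only [hom]
  exact half_of_cocompact G hG hdisc hcoc ha hab (by linarith)

end Pool.Agent.Results.MP_247fd6_al.HalfRange
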