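import Pool.Agent.Lib.MP_247fd6_al.GG3
import Pool.Agent.Lib.MP_247fd6_al.AF2

set_option autoImplicit false

open Matrix NumberField

namespace Pool.Agent.Results.MP_247fd6_al.SimplestType

open Pool.Agent.Lib.MP_247fd6_al

/-- Growth density for arithmetic hyperbolic manifolds of simplest type: let `G` be a discrete
cocompact group of isometries of hyperbolic `n`-space (hyperboloid model) which has a subgroup of
finite index consisting of integral automorphisms of a quadratic form `F` over the ring of integers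
of a number field `K`, real at the given place, anisotropic, and positive definite at all other
places.  Then every open subinterval of `[0, ω G]` contains the growth exponent of a finitely
generated subgroup of `G`. -/
theorem result :
  ∀ n : ℕ,
  ∀ η : Matrix (Fin (n+1)) (Fin (n+1)) ℝ,
    η = Matrix.diagonal (fun i : Fin (n+1) => if i = 0 then (-1 : ℝ) else 1) →
  ∀ ω : Subgroup (Matrix (Fin (n+1)) (Fin (n+1)) ℝ)ˣ → ℝ,
    (∀ H : Subgroup (Matrix (Fin (n+1)) (Fin (n+1)) ℝ)ˣ,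
      ω H = Filter.limsup
        (fun r : ℝ => Real.log
          ((({h | h ∈ H ∧ h.val 0 0 ≤ Real.cosh r} :
              Set (Matrix (Fin (n+1)) (Fin (n+1)) ℝ)ˣ).ncard : ℝ)) / r)
        Filter.atTop) →
  ∀ G : Subgroup (Matrix (Fin (n+1)) (Fin (n+1)) ℝ)ˣ,
    (∀ g ∈ G, g.valᵀ * η * g.val = η ∧ 0 < g.val 0 0) →
    (∀ R : ℝ, ({g | g ∈ G ∧ ∀ i j, |g.val i j| ≤ R} :
        Set (Matrix (Fin (n+1)) (Fin (n+1)) ℝ)ˣ).Finite) →
    (∃ C : ℝ, ∀ x : Fin (n+1) → ℝ, x ⬝ᵥ (η *ᵥ x) = -1 → 0 < x 0 →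
        ∃ g ∈ G, -(x ⬝ᵥ (η *ᵥ (fun i => g.val i 0)))  ≤ C) →
  ∀ (K : Type) [Field K] [NumberField K] (ι : K →+* ℝ)
    (F : Matrix (Fin (n+1)) (Fin (n+1)) (𝓞 K)),
    F.IsSymm →
    (∀ x : Fin (n+1) → 𝓞 K, x ⬝ᵥ (F *ᵥ x) = 0 → x = 0) →
    (∀ σ : K →+* ℂ, σ ≠ Complex.ofRealHom.comp ι →
      ∃ τ : K →+* ℝ, σ = Complex.ofRealHom.comp τ ∧ (F.map (fun a => τ (a : K))).PosDef) →
  ∀ M : (Matrix (Fin (n+1)) (Fin (n+1)) ℝ)ˣ,
    M.valᵀ * η * M.val = F.map (fun a => ι (a : K)) →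
  ∀ G₀ : Subgroup (Matrix (Fin (n+1)) (Fin (n+1)) ℝ)ˣ, G₀ ≤ G → G₀.relIndex G ≠ 0 →
    (∀ g ∈ G₀, ∃ B : Matrix (Fin (n+1)) (Fin (n+1)) (𝓞 K),
      g.val * M.val = M.val * B.map (fun a => ι (a : K))) →
    ∀ a b : ℝ, 0 ≤ a → a < b → b ≤ ω G →
      ∃ H : Subgroup (Matrix (Fin (n+1)) (Fin (n+1)) ℝ)ˣ,
        H ≤ G ∧ H.FG ∧ a < ω H ∧ ω H < b := by
  intro n η hη ω hω G hG hdisc hcoc K _ _ ι F hF haniso hpos M hM G₀ h₀ hi hint a b ha hab hb
  have hη' : η = eta n := hη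
  subst hη'
  simp only [bf_eq] at hcoc
  have hom : ∀ H, ω H = om H := fun H => hω H
  rw [hom] at hb
  simp only [hom]
  exact density_of_crit G hG hdisc hcoc
    (crit_of_simplest ι F hF haniso hpos M hM G G₀ hG h₀ hi hint hcoc) ha hab hb

end Pool.Agent.Results.MP_247fd6_al.SimplestType
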